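import Pool.Agent.W386.VSC
import Pool.Agent.W386.Conv
import Pool.Agent.Y28.FG

set_option autoImplicit false

/-!
# Virtual surjection to `k`-tuples implies type `FP_k`

Let `k ≥ 2`, let `Γ 1, …, Γ n` be groups of type `FP_k` and let `P` be a subgroup of their direct
product.  If every projection of `P` to `k` coordinates has finite index image, then `P` is of type
`FP_k`.
-/

namespace Pool.Agent.Results.MP_d943a5_al.VirtualSurjection

open Pool.Agent.W386

/-- `G` is of type `FP_m`: the trivial module `ℤ` has a partial resolution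
`F_m → ⋯ → F_0 → ℤ → 0` by free `ℤ[G]`-modules `F_i` of finite rank `k i`, exact in degrees
below `m`. -/
def TypeFP (m : ℕ) (G : Type) [Group G] : Prop :=
  ∃ (k : ℕ → ℕ) (ε : MonoidAlgebra ℤ G →+* ℤ)
    (d : ∀ i : ℕ, (Fin (k (i+1)) → MonoidAlgebra ℤ G) →ₗ[MonoidAlgebra ℤ G]
          (Fin (k i) → MonoidAlgebra ℤ G)),
    (∀ g : G, ε (MonoidAlgebra.of ℤ G g) = 1) ∧
    (∃ x : Fin (k 0) → MonoidAlgebra ℤ G, ∑ j, ε (x j) = 1) ∧
    (0 < m → ∀ x : Fin (k 0) → MonoidAlgebra ℤ G,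
        (∑ j, ε (x j) = 0 ↔ x ∈ LinearMap.range (d 0))) ∧
    (∀ j : ℕ, j + 2 ≤ m → LinearMap.range (d (j+1)) = LinearMap.ker (d j))

theorem fps_mono_le {R : Type} [Ring R] {M : Type} [AddCommGroup M] [Module R M] {a b : ℕ}
    (hab : a ≤ b) (h : FPs R b M) : FPs R a M := by
  induction b, hab using Nat.le_induction with
  | base => exact h
  | succ b _ ih => exact ih (FPs.mono h)

theorem vs_of_proj {n k : ℕ} (hkn : k ≤ n) (Γ : Fin n → Type) [∀ i, Group (Γ i)]
    (P : Subgroup (∀ i, Γ i))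
    (hP : ∀ J : Finset (Fin n), J.card = k →
      (P.map (MonoidHom.pi (fun j : J => Pi.evalMonoidHom Γ (j : Fin n)))).FiniteIndex) :
    VS k Finset.univ P := by
  intro J _ hJ
  obtain ⟨J', hJJ', hJ'⟩ := Finset.exists_superset_card_eq (n := k) hJ (by simpa using hkn)
  have := hP J' hJ'
  have h2 := fi_comap (MonoidHom.pi (fun j : J' => Pi.evalMonoidHom Γ (j : Fin n)))
    (P.map (MonoidHom.pi (fun j : J' => Pi.evalMonoidHom Γ (j : Fin n))))
  refine Subgroup.finiteIndex_of_le (H := (P.map (MonoidHom.pi (fun j : J' =>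
    Pi.evalMonoidHom Γ (j : Fin n)))).comap
      (MonoidHom.pi (fun j : J' => Pi.evalMonoidHom Γ (j : Fin n)))) ?_
  rintro x ⟨p, hp, hpx⟩
  have h3 : p⁻¹ * x ∈ KJ J := by
    intro j hj
    have h4 := congrFun hpx ⟨j, hJJ' hj⟩
    have h5 : p j = x j := h4
    rw [Pi.mul_apply, Pi.inv_apply, h5, inv_mul_cancel]
  have h6 := Subgroup.mul_mem (P ⊔ KJ J) (Subgroup.mem_sup_left hp) (Subgroup.mem_sup_right h3)
  rwa [mul_inv_cancel_left] at h6

theorem result (n k : ℕ) (hk : 2 ≤ k) (hkn : k ≤ n) (Γ : Fin n → Type) [∀ i, Group (Γ i)]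
    (hΓ : ∀ i, TypeFP k (Γ i)) (P : Subgroup (∀ i, Γ i))
    (hP : ∀ J : Finset (Fin n), J.card = k →
      (P.map (MonoidHom.pi (fun j : J => Pi.evalMonoidHom Γ (j : Fin n)))).FiniteIndex) :
    TypeFP k P := by
  have hvs := vs_of_proj hkn Γ P hP
  have hF : ∀ i, FPs (ZG (Γ i)) (k + 1) (Triv (Γ i)) := fun i =>
    fps_of_data (by omega) (hΓ i)
  have hfg : ∀ i, Group.FG (Γ i) := fun i =>
    Pool.Agent.Y28.fg_of_fps (fps_mono_le (by omega) (hF i))
  exact data_of_fps (vs_main hfg Finset.univ k P hF (fun x _ i hi => absurd (Finset.mem_univ i) hi)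
    (hh_of_vs (fun i => Finset.mem_univ i) (hvs.mono hk)) hvs)

end Pool.Agent.Results.MP_d943a5_al.VirtualSurjection
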